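import Pool.Agent.Helper81.MIT.Mod

/-!
MP_c75db0, W1: cells on the lines `x0 = (E0 - E1 kappa_q^2 - E2 kappa_r^2) / (kappa_p kappa_q kappa_r)`
with rational constants (scale `2 ^ 48`); in the coordinate `W` of the star frame these are the
functions which are affine in `kappa_q^2`, `kappa_r^2`.
-/

set_option autoImplicit false
set_option exponentiation.threshold 4000
noncomputable section
namespace Pool.Agent.Helper87.W1

open Pool.Agent.Helper90.C75 (Vt)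
open Pool.Agent.Helper90.KMT (TOK AOK)
open Pool.Agent.Helper90.KMO (zv UU)
open Pool.Agent.Helper86.C75 (Z)
open Pool.Agent.Helper86.CX (Hm Cx P9 VR)
open Pool.Agent.Helper86.CT (Alg Rw Mo Mc Mq clsOK mkCls Vx LT2 CellT chkPcT xAM xAOK subM mulM invM)
open Pool.Agent.Helper39.SLT (T4)
open Pool.Agent.Helper6.MONO (Kp)
open Pool.Agent.Helper6.MONO.QTR (TCell)
open Pool.Agent.Helper21.KRN (TProg XM expand)
open Pool.Agent.Helper21.KTE (MZ KS sideT)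
open Pool.Agent.Helper81.MIT (MDT Lb modX kR tcell_T)

/-- **the line** -/
def xL (E0 E1 E2 : ℕ) (a b c : ℝ) : ℝ :=
  ((E0 : ℝ) / 2 ^ 48 - (E1 : ℝ) / 2 ^ 48 * b ^ 2 - (E2 : ℝ) / 2 ^ 48 * c ^ 2) / (a * b * c)

/-- the other order of the last two labels -/
theorem xL_swap (E0 E1 E2 : ℕ) (a b c : ℝ) : xL E0 E2 E1 a c b = xL E0 E1 E2 a b c := by
  unfold xL
  rw [show a * b * c = a * c * b by ring]
  congr 1
  ring

/-- the numerator -/
def nLM {α : Type} (A : Alg α) (E0 E1 E2 : Nat) (k1 k2 : Mo α) : Mo α :=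
  subM A (subM A (Pool.Agent.Helper86.CT.cst A E0 (nat_lit 0))
      (mulM A (Pool.Agent.Helper86.CT.cst A E1 (nat_lit 0)) (mulM A k1 k1)))
    (mulM A (Pool.Agent.Helper86.CT.cst A E2 (nat_lit 0)) (mulM A k2 k2))
/-- **the line as a model** -/
def xLM {α : Type} (A : Alg α) (E0 E1 E2 : Nat) (k0 k1 k2 : Mo α) : Mo α :=
  mulM A (nLM A E0 E1 E2 k1 k2) (invM A (mulM A (mulM A k0 k1) k2))

section

variable {α : Type} {D : ℕ} {lf : α → Vt D → ℂ} {A : Alg α} {t : ℕ → ℝ}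

/-- a constant `n / 2 ^ 48` -/
theorem TOK_n48 (hA : AOK D lf A) (hP : Pool.Agent.Helper90.KMT.PT D t) (n : ℕ) :
    TOK D lf t (((n : ℝ) / 2 ^ 48 : ℝ) : ℂ) (Pool.Agent.Helper86.CT.cst A n (nat_lit 0)) := by
  refine TOK.cst' hA hP ?_
  unfold UU
  push_cast
  rw [show (2 : ℂ) ^ 48 = 281474976710656 by norm_num]
  exact mul_div_cancel₀ (n : ℂ) (by norm_num)

/-- **THE VALUE OF THE LINE** -/
theorem TOK_xL (hA : AOK D lf A) (hP : Pool.Agent.Helper90.KMT.PT D t) {a b c : ℝ}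
    {Ka Kb Kc : Mo α} (ha : TOK D lf t (a : ℂ) Ka) (hb : TOK D lf t (b : ℂ) Kb)
    (hc : TOK D lf t (c : ℂ) Kc) (hok : xAOK A Ka Kb Kc = true) (E0 E1 E2 : ℕ) :
    TOK D lf t ((xL E0 E1 E2 a b c : ℝ) : ℂ) (xLM A E0 E1 E2 Ka Kb Kc) := by
  have hi := TOK.inv hA hP ((ha.mul hA hP hb).mul hA hP hc) hok
  have h1 := (((TOK_n48 hA hP E0).sub hA ((TOK_n48 hA hP E1).mul hA hP (hb.mul hA hP hb))).sub hA
    ((TOK_n48 hA hP E2).mul hA hP (hc.mul hA hP hc))).mul hA hP hi.1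
  refine h1.congr ?_
  unfold xL
  rw [div_eq_mul_inv]
  push_cast
  ring

end

section

variable {D : ℕ} {α β p' v γ : Type} {lC : α → Vt (D + 1) → Cx} {lf : α → Vt (D + 1) → ℂ}
  {mf : (ℕ → ℝ) → β → (ℕ → ℝ) → ℝ} {lp : p' → Vt (D + 1) → P9} {lv : v → Vt (D + 1) → VR}
  {lg : γ → Vt (D + 1) → ℕ} {Sa : α → List Bool → Prop} {Sp : p' → List Bool → Prop}
  {Sv : v → List Bool → Prop} {Sg : γ → List Bool → Prop} {M : Mc α β p' v γ}
  {S : Pool.Agent.Helper86.CT.Sv p'} {W : Vx β} {yy : ℕ → ℕ → α} {qd : ℕ → Cx → Cx → Cx → α}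
  {rt : α → Bool}

/-- **THE MODULE ON A LINE** -/
theorem tcell_TL {X : XM α v}
    (hZ : MZ D lC lf mf lp lv lg Sa Sp Sv Sg M X.Q X.c X.r S W yy qd rt)
    {s0 s1 s2 : KS} {a b c : Lb} {E0 E1 E2 : ℕ}
    (hd : MDT D M qd rt X (xLM M.A E0 E1 E2 X.k0 X.k1 X.k2) s0 s1 s2 a b c)
    (hA : xAOK M.A X.k0 X.k1 X.k2 = true)
    {l : List (CellT α β)} (hl : l ≠ []) {sl : List ℕ} {le : List LT2}
    (hs : l.all (sideT W le) = true) {kx : ℕ → T4 → ℕ} {BE BO : List ℕ} {G : TProg}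
    (hM : modX kx a b c BE BO G sl le = true) {y e : ℕ}
    (H : chkPcT M S W yy (mkCls M.A X.k0 X.k1 X.k2) (expand X G)
      (xLM M.A E0 E1 E2 X.k0 X.k1 X.k2) sl le e l y = true)
    {p q r : ℕ} (ha : a.has p) (hb : b.has q) (hc : c.has r) {x0 : ℝ}
    (hx0 : x0 = xL E0 E1 E2 (Kp p) (Kp q) (Kp r)) (hx : -2 < x0) (hx2 : x0 ≤ 2) :
    TCell p q r x0 ((y : ℝ) / 2 ^ 48) ((e : ℝ) / 2 ^ 48) := by
  refine tcell_T hZ hd hl hs hM H ha hb hc hx hx2 ?_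
  intro t ht k0 k1 k2
  rw [hx0]
  exact TOK_xL hZ.m.a ht k0 k1 k2 hA E0 E1 E2

end

end Pool.Agent.Helper87.W1
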