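import Pool.Agent.Helper87.W1.Lin
import Pool.Agent.Helper30.W2.Cw

/-!
MP_c75db0, W1: the lines of the cells are the lines of the covers.
-/

set_option autoImplicit false
noncomputable section
namespace Pool.Agent.Helper87.W1

open Pool.Agent.Helper6.MONO (Kp xA xA_gt)
open Pool.Agent.Helper30.W2 (Ln Lx)

/-- the line of the covers -/
theorem Lx_xL (E0 E1 E2 p q r : ℕ) : Lx (Ln.a E0 E1 E2) p q r = xL E0 E1 E2 (Kp p) (Kp q) (Kp r) :=
  rfl
theorem Lx_xL' (E0 E1 E2 p q r : ℕ) :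
    Lx (Ln.a E0 E1 E2) p q r = xL E0 E2 E1 (Kp p) (Kp r) (Kp q) :=
  (xL_swap E0 E1 E2 (Kp p) (Kp q) (Kp r)).symm

/-- the line of a cover is in the interval of the theorems -/
theorem Lx_range {l : Ln} {p q r : ℕ} (hp : 3 ≤ p) (hpq : p ≤ q) (hqr : q ≤ r)
    (h : xA p q r ≤ Lx l p q r) (h0 : Lx l p q r ≤ 0) : -2 < Lx l p q r ∧ Lx l p q r ≤ 2 := by
  have := xA_gt (p := p) hp (hp.trans hpq) hqr
  exact ⟨by linarith, by linarith⟩

end Pool.Agent.Helper87.W1
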